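import Pool.Agent.MP_9c0e17_co.SymA

set_option autoImplicit false

namespace Pool.Agent.Results.MP_9c0e17_co.CyclotomicSubarcs
open Pool.Agent.MP_9c0e17_co

/-- Let `A` be a union of cosets of the group of `d`-th powers in the Teichmueller group `T`, of
density more than `5 d / sqrt q` in `T`. Every arc of `PHG(2, GR(q^2,4))`, of any size, that
contains the points `a R`, `a ∈ A`, is contained in the Teichmueller arc. -/
theorem result (r d : ℕ) (hr : 1 ≤ r) (hd : 1 ≤ d)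
    (R : Type) [CommRing R] [Fintype R] [IsLocalRing R] [CharP R 4]
    (hm : IsLocalRing.maximalIdeal R = Ideal.span {(2 : R)}) (hc : Fintype.card R = 2 ^ (2 * r))
    (S : Type) [CommRing S] [IsLocalRing S] [Algebra R S]
    (hS : IsLocalRing.maximalIdeal S = Ideal.span {(2 : S)}) (β : Module.Basis (Fin 3) R S)
    (A : Set S) (hA : ∀ a ∈ A, a ^ (8 ^ r - 1) = 1)
    (hA' : ∀ a ∈ A, ∀ t : S, t ^ (8 ^ r - 1) = 1 → a * t ^ d ∈ A)
    (hb : (5 * d * (8 ^ r - 1)) ^ 2 < A.ncard ^ 2 * 2 ^ r)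
    (K : Set (Fin 3 → R))
    (h1 : ∀ x ∈ K, ∃ i, IsUnit (x i)) (h2 : ∀ x ∈ K, ∀ u : Units R, (u : R) • x ∈ K)
    (h4 : ∀ a : Fin 3 → R, (∃ i, IsUnit (a i)) →
      {x ∈ K | dotProduct a x = 0}.ncard ≤ 2 * Nat.card (Units R))
    (h5 : ∀ a ∈ A, β.equivFun a ∈ K) :
    K ⊆ {y | ∃ (u : Units R) (t : S), t ^ (8 ^ r - 1) = 1 ∧ y = β.equivFun ((u : R) • t)} :=
  Sym.subarc hr hd hm hc hS β A hA hA' hb h1 h2 h4 h5

end Pool.Agent.Results.MP_9c0e17_co.CyclotomicSubarcs
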