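import Pool.Agent.MP_9c0e17_co.SymF

set_option autoImplicit false

namespace Pool.Agent.Results.MP_9c0e17_co.LargeStabiliser
open Pool.Agent.MP_9c0e17_co

/-- A `(q^2+q+1,2)`-arc of `PHG(2, GR(q^2,4))`, `q = 2^r ≥ 32`, whose stabiliser in `PGL(3,R)` has
order at least `7 q^(7/4)` is the image of the Teichmueller arc under an invertible matrix. -/
theorem result (r : ℕ) (hr : 5 ≤ r)
    (R : Type) [CommRing R] [Fintype R] [IsLocalRing R] [CharP R 4]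
    (hm : IsLocalRing.maximalIdeal R = Ideal.span {(2 : R)}) (hc : Fintype.card R = 2 ^ (2 * r))
    (K : Set (Fin 3 → R))
    (h1 : ∀ x ∈ K, ∃ i, IsUnit (x i)) (h2 : ∀ x ∈ K, ∀ u : Units R, (u : R) • x ∈ K)
    (h3 : K.ncard = (4 ^ r + 2 ^ r + 1) * Nat.card (Units R))
    (h4 : ∀ a : Fin 3 → R, (∃ i, IsUnit (a i)) →
      {x ∈ K | dotProduct a x = 0}.ncard ≤ 2 * Nat.card (Units R))
    (h5 : 7 ^ 4 * (2 ^ r) ^ 7 * Nat.card (Units R) ^ 4 ≤
      {A : Matrix (Fin 3) (Fin 3) R | IsUnit A.det ∧ A.mulVec '' K = K}.ncard ^ 4)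
    (S : Type) [CommRing S] [IsLocalRing S] [Algebra R S]
    (hS : IsLocalRing.maximalIdeal S = Ideal.span {(2 : S)}) (β : Module.Basis (Fin 3) R S) :
    ∃ M : Matrix (Fin 3) (Fin 3) R, IsUnit M.det ∧ K = M.mulVec ''
      {y | ∃ (u : Units R) (t : S), t ^ (8 ^ r - 1) = 1 ∧ y = β.equivFun ((u : R) • t)} := by
  obtain ⟨φ, D⟩ := ex_dat (by omega) hm hc ⟨h1, h2, h3, h4⟩
  exact Sym.large D hr h5 S hS β

end Pool.Agent.Results.MP_9c0e17_co.LargeStabiliser
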