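import Pool.Agent.MP_9c0e17_co.Many

set_option autoImplicit false

namespace Pool.Agent.Results.MP_9c0e17_co.ManyConics
open Pool.Agent.MP_9c0e17_co

/-- A `(q^2+q+1,2)`-arc of `PHG(2, GR(q^2,4))`, `q = 2^r ≥ 32`, that induces a conic in the
derived planes of at least `3 q (2^g + 1)` neighbour classes of lines, `g` the largest proper
divisor of `r`, is the image of the Teichmueller arc under an invertible matrix. -/
theorem result (r : ℕ) (hr : 5 ≤ r)
    (R : Type) [CommRing R] [Fintype R] [IsLocalRing R] [CharP R 4]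
    (hm : IsLocalRing.maximalIdeal R = Ideal.span {(2 : R)}) (hc : Fintype.card R = 2 ^ (2 * r))
    (K : Set (Fin 3 → R))
    (h1 : ∀ x ∈ K, ∃ i, IsUnit (x i)) (h2 : ∀ x ∈ K, ∀ u : Units R, (u : R) • x ∈ K)
    (h3 : K.ncard = (4 ^ r + 2 ^ r + 1) * Nat.card (Units R))
    (h4 : ∀ a : Fin 3 → R, (∃ i, IsUnit (a i)) →
      {x ∈ K | dotProduct a x = 0}.ncard ≤ 2 * Nat.card (Units R))
    (L : Finset (Fin 3 → R)) (hL : 3 * 2 ^ r * (2 ^ (r / r.minFac) + 1) ≤ L.card)
    (h5 : ∀ a ∈ L, ∀ a' ∈ L, a ≠ a' → ∃ i, IsUnit (crossProduct a a' i))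
    (h6 : ∀ a ∈ L, ∃ b c e : Fin 3 → R, IsUnit (Matrix.of ![a, b, c]).det ∧
      ∀ x ∈ K, ∀ w : R, dotProduct a x = 2 * w →
        (w + dotProduct e x) ^ 2 - dotProduct b x * dotProduct c x ∈ Ideal.span {(2 : R)})
    (S : Type) [CommRing S] [IsLocalRing S] [Algebra R S]
    (hS : IsLocalRing.maximalIdeal S = Ideal.span {(2 : S)}) (β : Module.Basis (Fin 3) R S) :
    ∃ M : Matrix (Fin 3) (Fin 3) R, IsUnit M.det ∧ K = M.mulVec ''
      {y | ∃ (u : Units R) (t : S), t ^ (8 ^ r - 1) = 1 ∧ y = β.equivFun ((u : R) • t)} := by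
  classical
  obtain ⟨φ, D⟩ := ex_dat (by omega) hm hc ⟨h1, h2, h3, h4⟩
  have := D.G.charP
  have : Finite (IsLocalRing.ResidueField R) :=
    Finite.of_surjective _ IsLocalRing.residue_surjective
  have := Fintype.ofFinite (IsLocalRing.ResidueField R)
  have hq := Nat.card_eq_fintype_card.symm.trans D.hq
  choose s hs using ex_sqrt (F := IsLocalRing.ResidueField R)
  have key : ∀ a ∈ L, ∀ a' ∈ L, a ≠ a' → cr (fun i => s (IsLocalRing.residue R (a i)))
      (fun i => s (IsLocalRing.residue R (a' i))) ≠ 0 := fun a ha a' ha' hne h0 => by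
    obtain ⟨i, hi⟩ := h5 a ha a' ha' hne
    refine (IsLocalRing.residue_ne_zero_iff_isUnit _).2 hi ?_
    have k := congrArg (· ^ 2) (congrFun h0 i)
    fin_cases i <;> simp [CharTwo.add_sq, mul_pow, hs] at k <;>
      simp [cross_apply, CharTwo.sub_eq_add, k]
  have hl := lev_one_of_many D.hom hq hr D.inj
    (L.image fun a i => s (IsLocalRing.residue R (a i))) (fun a ha b hb hne => by
      obtain ⟨a, ha', rfl⟩ := Finset.mem_image.1 ha
      obtain ⟨b, hb', rfl⟩ := Finset.mem_image.1 hb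
      exact key a ha' b hb' fun h => hne (h ▸ rfl)) (fun a ha => by
      obtain ⟨a, ha', rfl⟩ := Finset.mem_image.1 ha
      obtain ⟨b, c, e, hd, h⟩ := h6 a ha'
      exact D.trD (fun i => hs _) le_rfl hd (by simpa using h)) (by
      rwa [Finset.card_image_of_injOn]
      intro a ha b hb h
      by_contra hne
      refine key a ha b hb hne ?_
      simp only at h
      rw [h]
      apply v3 <;> simp <;> grind)
  obtain ⟨N, S', hN, hS'⟩ := conic D.hom hq (by omega) hl (D.inj.cf_ne D.hom hq (by omega) hl)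
  exact D.finish (by omega) hN hS' S hS β

end Pool.Agent.Results.MP_9c0e17_co.ManyConics
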