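import Pool.Agent.MP_9c0e17_co.Main

set_option autoImplicit false

namespace Pool.Agent.Results.MP_9c0e17_co.TranslationOvals
open Pool.Agent.MP_9c0e17_co

/-- A `(q^2+q+1,2)`-arc of `PHG(2, GR(q^2,4))`, `q = 2^r ≥ 32`, that induces a translation oval
`W^(2^j) = U^(2^j-1) V` in the derived plane of every neighbour class of lines is the image of the
Teichmueller arc under an invertible matrix. -/
theorem result (r : ℕ) (hr : 5 ≤ r)
    (R : Type) [CommRing R] [Fintype R] [IsLocalRing R] [CharP R 4]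
    (hm : IsLocalRing.maximalIdeal R = Ideal.span {(2 : R)}) (hc : Fintype.card R = 2 ^ (2 * r))
    (K : Set (Fin 3 → R))
    (h1 : ∀ x ∈ K, ∃ i, IsUnit (x i)) (h2 : ∀ x ∈ K, ∀ u : Units R, (u : R) • x ∈ K)
    (h3 : K.ncard = (4 ^ r + 2 ^ r + 1) * Nat.card (Units R))
    (h4 : ∀ a : Fin 3 → R, (∃ i, IsUnit (a i)) →
      {x ∈ K | dotProduct a x = 0}.ncard ≤ 2 * Nat.card (Units R))
    (h5 : ∀ a : Fin 3 → R, (∃ i, IsUnit (a i)) → ∃ j : ℕ, 1 ≤ j ∧ j < r ∧
      ∃ b c e : Fin 3 → R, IsUnit (Matrix.of ![a, b, c]).det ∧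
        ∀ x ∈ K, ∀ w : R, dotProduct a x = 2 * w →
          (w + dotProduct e x) ^ 2 ^ j - dotProduct b x ^ (2 ^ j - 1) * dotProduct c x ∈
            Ideal.span {(2 : R)})
    (S : Type) [CommRing S] [IsLocalRing S] [Algebra R S]
    (hS : IsLocalRing.maximalIdeal S = Ideal.span {(2 : S)}) (β : Module.Basis (Fin 3) R S) :
    ∃ M : Matrix (Fin 3) (Fin 3) R, IsUnit M.det ∧ K = M.mulVec ''
      {y | ∃ (u : Units R) (t : S), t ^ (8 ^ r - 1) = 1 ∧ y = β.equivFun ((u : R) • t)} := by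
  obtain ⟨φ, D⟩ := ex_dat (by omega) hm hc ⟨h1, h2, h3, h4⟩
  have := D.G.charP
  have : Finite (IsLocalRing.ResidueField R) :=
    Finite.of_surjective _ IsLocalRing.residue_surjective
  have := Fintype.ofFinite (IsLocalRing.ResidueField R)
  have hq := Nat.card_eq_fintype_card.symm.trans D.hq
  have h := all_conic D.hom hq hr (r - 1) (by omega) (by omega) fun a ha => by
    obtain ⟨i, hi⟩ := Function.ne_iff.1 ha
    obtain ⟨j, j1, j2, b, c, e, hd, h⟩ := h5 (fun i => sq' (a i))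
      ⟨i, by rw [← IsLocalRing.residue_ne_zero_iff_isUnit]; simpa using hi⟩
    exact ⟨j, j1, by omega, D.trD (fun i => by simp) j1 hd h⟩
  obtain ⟨N, S', hN, hS'⟩ := conic D.hom hq (by omega)
    (lev_of_tr fun a ha => ⟨1, le_rfl, le_rfl, h a ha⟩) fun x y hxy => by
      obtain ⟨b, c, g, h⟩ := h _ hxy
      exact h.cf_ne hq (by omega)
  exact D.finish (by omega) hN hS' S hS β

end Pool.Agent.Results.MP_9c0e17_co.TranslationOvals
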